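import Pool.Agent.H55.CU.Targets

set_option autoImplicit false

open MeasureTheory ProbabilityTheory Filter Topology
open scoped ENNReal
open Pool.Agent.H95 Pool.Agent.H95.Cop Pool.Agent.H96.Cop Pool.Agent.H55.CU

namespace Pool.Agent.H53.CU

lemma ga_one (α : ℝ) : ga α 1 = 9 / 16 := by
  unfold ga; simp

lemma ga_two (α : ℝ) : ga α 2 = 9 / 16 := by
  unfold ga; simp

lemma ga_add (α : ℝ) (m : ℕ) : ga α (m + 3) = 9 / 16 * (((m + 1 : ℕ) : ℝ) + 1) ^ (-(1 + α)) := by
  unfold ga
  have : max (m + 3 - 1) 1 = m + 2 := by omega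
  rw [this]
  congr 2
  push_cast
  ring

lemma ga_sum (α : ℝ) (m : ℕ) : ∑ j ∈ Finset.Icc 1 (m + 2), ga α j =
    9 / 16 * (2 + ∑ i ∈ Finset.Ico 1 (m + 1), ((i : ℝ) + 1) ^ (-(1 + α))) := by
  induction m with
  | zero =>
    have : Finset.Icc 1 (0 + 2) = ({1, 2} : Finset ℕ) := by decide
    rw [this, Finset.sum_pair (by norm_num), ga_one, ga_two]
    simp
    norm_num
  | succ m ih =>
    rw [show m + 1 + 2 = (m + 2) + 1 by ring, Finset.sum_Icc_succ_top (by omega), ih,
      Finset.sum_Ico_succ_top (a := 1) (b := m + 1) (by omega), show m + 2 + 1 = m + 3 by ring,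
      ga_add]
    ring

theorem pf_GAS : T_GAS := by
  intro α h0 h1
  have hnn : ∀ j, 0 ≤ ga α j := fun j => by unfold ga; positivity
  refine ⟨hnn, fun n => ?_, fun a j hj ha haj => ?_⟩
  · have hsub : ∑ j ∈ Finset.Icc 1 n, ga α j ≤ ∑ j ∈ Finset.Icc 1 (n + 2), ga α j := by
      apply Finset.sum_le_sum_of_subset_of_nonneg
      · intro j hj
        simp only [Finset.mem_Icc] at hj ⊢
        omega
      · intro j _ _
        exact hnn j
    refine hsub.trans ?_
    rw [ga_sum]
    have h := sum_pow_up (s := α) h0 (k := 1) (N := n + 1) le_rfl (by omega)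
    have h2 : (((1 : ℕ) : ℝ) ^ (-α) - ((n + 1 : ℕ) : ℝ) ^ (-α)) / α ≤ 1 / α := by
      apply div_le_div_of_nonneg_right _ h0.le
      have : (0 : ℝ) ≤ ((n + 1 : ℕ) : ℝ) ^ (-α) := by positivity
      simp only [Nat.cast_one, Real.one_rpow]
      linarith
    linarith [h.trans h2]
  · have hM : 1 + a ≤ 32 * max (j - 1) 1 := by
      rcases Nat.lt_or_ge j 2 with h | h
      · have : j = 1 := by omega
        subst this
        simp
        omega
      · have : max (j - 1) 1 = j - 1 := by omega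
        rw [this]
        omega
    have hMr : (1 + (a : ℝ)) / 32 ≤ ((max (j - 1) 1 : ℕ) : ℝ) := by
      rw [div_le_iff₀ (by norm_num)]
      have : ((1 + a : ℕ) : ℝ) ≤ ((32 * max (j - 1) 1 : ℕ) : ℝ) := by exact_mod_cast hM
      rw [Nat.cast_add, Nat.cast_mul] at this
      push_cast at this ⊢
      linarith
    have hpos : (0 : ℝ) < (1 + (a : ℝ)) / 32 := by positivity
    have h2 : ga α j ≤ 9 / 16 * ((1 + (a : ℝ)) / 32) ^ (-(1 + α)) := by
      unfold ga
      apply mul_le_mul_of_nonneg_left _ (by norm_num)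
      exact Real.rpow_le_rpow_of_nonpos hpos hMr (by linarith)
    refine h2.trans ?_
    have h3 : ((1 + (a : ℝ)) / 32) ^ (-(1 + α)) = (32 : ℝ) ^ (1 + α) * (1 + (a : ℝ)) ^ (-(1 + α)) := by
      rw [Real.div_rpow (by positivity) (by norm_num), Real.rpow_neg (by norm_num) (1 + α) (x := (32 : ℝ))]
      field_simp
    have h4 : (32 : ℝ) ^ (1 + α) ≤ 64 := by
      rw [Real.rpow_add (by norm_num), Real.rpow_one]
      have : (32 : ℝ) ^ α ≤ 2 := by
        have e : (32 : ℝ) = 2 ^ (5 : ℝ) := by norm_num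
        rw [e, ← Real.rpow_mul (by norm_num)]
        calc (2 : ℝ) ^ (5 * α) ≤ 2 ^ (1 : ℝ) := by
              apply Real.rpow_le_rpow_of_exponent_le (by norm_num)
              norm_num at h1
              linarith
          _ = 2 := by norm_num
      linarith
    rw [h3]
    have h5 : 0 ≤ (1 + (a : ℝ)) ^ (-(1 + α)) := by positivity
    nlinarith [mul_le_mul_of_nonneg_right h4 h5]

end Pool.Agent.H53.CU
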