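import Pool.Agent.H55.CU.Targets

set_option autoImplicit false

open MeasureTheory ProbabilityTheory Filter Topology
open scoped ENNReal
open Pool.Agent.H95 Pool.Agent.H95.Cop Pool.Agent.H96.Cop Pool.Agent.H55.CU

namespace Pool.Agent.H53.CU

lemma nn_nonneg {α : ℝ} (h0 : 0 < α) (a : ℕ) : 0 ≤ nn α a := by
  unfold nn
  split_ifs
  · exact h0.le
  · positivity

lemma dd_nonneg (hBKP : T_BKP) {c1 : ℝ} (h : 0 ≤ c1) (s a : ℕ) : 0 ≤ dd c1 s a := by
  rcases Nat.eq_zero_or_pos a with ha | ha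
  · subst ha
    unfold dd
    simp
  · have := (hBKP c1 s a h ha).2.1
    linarith [show (0 : ℝ) ≤ 2 ^ 21 by positivity]

theorem pf_STP (hJEN : T_JEN) (hMPL : T_MPL) (hTHP : T_THP) (hBKP : T_BKP) (hGSC : T_GSC)
    (hSTX : T_STX) (hSTR : T_STR) (hNUF : T_NUF) : T_STP := by
  intro K ν _ α c n0 k s h0 h1 hc hKB hk hn0k hs hMo hHS
  have hα4 : α ≤ 1 / 4 := h1.trans (by norm_num)
  obtain ⟨t1, t2, t3, t4, t5⟩ := hTHP α s h0 hα4
  obtain ⟨u1, u2, u3, u4, u5⟩ := hTHP α (s + 1) h0 hα4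
  obtain ⟨f1, -, -, -, -⟩ := hNUF α s h0 h1 hs
  have hcc : 0 ≤ cc α := by unfold cc; positivity
  have hk0 : (0 : ℝ) < k := by exact_mod_cast hk
  have hZ : 0 < ZZ α c k := by unfold ZZ; positivity
  have hθ0 : 0 < th α (s + 1) := by linarith
  have hts : 0 < th α s := by linarith
  have hy : 0 < ZZ α c k ^ th α (s + 1) := Real.rpow_pos_of_pos hZ _
  have hJ : 1 ≤ 2 ^ s := Nat.one_le_two_pow
  have hJr : (0 : ℝ) < 2 ^ s := by positivity
  have hD : ∀ r a, 0 ≤ dd (cc α) r a * nn α a := fun r a =>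
    mul_nonneg (dd_nonneg hBKP hcc r a) (nn_nonneg h0 a)
  -- the old moments
  have hmom : ∀ a, ∫⁻ x, PL K k (k * 2 ^ s) a x ^ th α (s + 1) ∂(iid ν) ≤
      ENNReal.ofReal (ZZ α c k ^ th α (s + 1) * FF α s a) := by
    intro a
    have e1 := hJEN (iid ν) (PL K k (k * 2 ^ s) a) (hMPL K k (k * 2 ^ s) a).1.aemeasurable
      (th α (s + 1)) (th α s) hθ0 t3
    refine e1.trans ?_
    have e2 := ENNReal.rpow_le_rpow (hHS a) (div_nonneg hθ0.le hts.le :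
      0 ≤ th α (s + 1) / th α s)
    refine e2.trans ?_
    have hZD : 0 ≤ ZZ α c k * (dd (cc α) s a * nn α a) := mul_nonneg hZ.le (hD s a)
    rw [ENNReal.ofReal_rpow_of_nonneg (Real.rpow_nonneg hZD _) (div_nonneg hθ0.le hts.le),
      ← Real.rpow_mul hZD, mul_div_cancel₀ _ hts.ne', Real.mul_rpow hZ.le (hD s a)]
    exact le_of_eq rfl
  -- the weight
  have hkJ : 1 ≤ k * 2 ^ s := Nat.one_le_iff_ne_zero.mpr (by positivity)
  have hn0 : n0 ≤ k * 2 ^ s := hn0k.trans (Nat.le_mul_of_pos_right k (by positivity))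
  obtain ⟨g1, g2⟩ := hGSC K α c n0 h0 hc hKB
  have h1θ : 1 ≤ (1 + α) * th α (s + 1) := by
    rw [u4]
    have : 0 ≤ α / 2 ^ (s + 1) := by positivity
    linarith
  have g3 := g2 k (2 ^ s) (th α (s + 1)) hk hJ hθ0 h1θ
  have hg0 : 0 ≤ 9 / 16 * c * ((k * 2 ^ s : ℕ) : ℝ) ^ (-(1 + α)) := by positivity
  obtain ⟨X, x1, x2, x3⟩ := hSTX K k (2 ^ s) hk hJ
    (ENNReal.ofReal (9 / 16 * c * ((k * 2 ^ s : ℕ) : ℝ) ^ (-(1 + α))))
    (fun m hm _ => (g1 (k * 2 ^ s) m hkJ hn0 hm).2) ν (th α (s + 1))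
    (ZZ α c k ^ th α (s + 1)) (3 / 2 ^ s) (FF α s) hθ0 u2 hy (by positivity) f1 hmom (by
      intro j hj1 hj2
      have hm := hMo ((j - 1) * k) (Nat.mul_le_mul_right k (by omega))
      rw [ENNReal.ofReal_rpow_of_nonneg hg0 hθ0.le]
      calc ENNReal.ofReal ((9 / 16 * c * ((k * 2 ^ s : ℕ) : ℝ) ^ (-(1 + α))) ^ th α (s + 1)) *
            Mo ν (th α (s + 1)) ^ ((j - 1) * k)
          ≤ ENNReal.ofReal (1 / ((2 ^ s : ℕ) : ℝ) / ZZ α c k ^ th α (s + 1)) * 3 :=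
            mul_le_mul' (ENNReal.ofReal_le_ofReal g3) hm
        _ = ENNReal.ofReal (1 / ((2 ^ s : ℕ) : ℝ) / ZZ α c k ^ th α (s + 1)) *
              ENNReal.ofReal 3 := by rw [ENNReal.ofReal_ofNat]
        _ = ENNReal.ofReal (3 / 2 ^ s / ZZ α c k ^ th α (s + 1)) := by
            rw [← ENNReal.ofReal_mul (by positivity)]
            congr 1
            push_cast
            ring)
  have hR := hSTR α s X h0 h1 hs x1 x2
  intro a
  have e : k * 2 ^ (s + 1) = k * (2 * 2 ^ s) := by ring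
  rw [e, x3 a]
  apply ENNReal.ofReal_le_ofReal
  rw [Real.mul_rpow hZ.le (hD (s + 1) a)]
  exact mul_le_mul_of_nonneg_left (hR a) hy.le

end Pool.Agent.H53.CU
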